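import Mathlib

set_option autoImplicit false
open Real MeasureTheory Finset Matrix
open scoped ENNReal ComplexConjugate

namespace Pool.Agent.Results.MP_becf51_an.AboveHalfPi

/-! ### Definitions: the circle is parametrised by `t ∈ (0, 2π]`, `ζ = exp (i t)` -/

/-- Lebesgue measure on one period -/
noncomputable def μ : Measure ℝ := volume.restrict (Set.Ioc 0 (2 * π))

/-- `ζ⁻ⁿ` for `ζ = exp (i t)` -/
noncomputable def e (n : ℤ) (t : ℝ) : ℂ := Complex.exp (-(((n : ℝ) * t : ℝ) : ℂ) * Complex.I)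

/-- Fourier coefficients with respect to normalised Lebesgue measure -/
noncomputable def coeff (f : ℝ → ℂ) (n : ℤ) : ℂ :=
  (1 / (2 * π) : ℝ) * ∫ t, f t * e n t ∂μ

/-- self-adjoint Toeplitz matrices -/
def IsSAToeplitz {N : ℕ} (A : Matrix (Fin (N + 1)) (Fin (N + 1)) ℂ) : Prop :=
  ∃ a : ℤ → ℂ, (∀ n, a (-n) = conj (a n)) ∧
    ∀ j k : Fin (N + 1), A j k = a ((j : ℤ) - (k : ℤ))

/-- the set `𝒢_A` of bounded functions `f` with `f^(n) = a_n` for `|n| ≤ N` -/
def symbols {N : ℕ} (A : Matrix (Fin (N + 1)) (Fin (N + 1)) ℂ) : Set (ℝ → ℂ) :=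
  {f | AEStronglyMeasurable f μ ∧ eLpNorm f ⊤ μ < ⊤ ∧
    ∀ j k : Fin (N + 1), A j k = coeff f ((j : ℤ) - (k : ℤ))}

/-- `c_A`, the least supremum norm of a symbol -/
noncomputable def cA {N : ℕ} (A : Matrix (Fin (N + 1)) (Fin (N + 1)) ℂ) : ℝ≥0∞ :=
  ⨅ f ∈ symbols A, eLpNorm f ⊤ μ

/-- the spectral norm of a matrix -/
noncomputable def opNorm {N : ℕ} (A : Matrix (Fin (N + 1)) (Fin (N + 1)) ℂ) : ℝ :=
  ‖toEuclideanCLM (n := Fin (N + 1)) (𝕜 := ℂ) A‖

/-- `c_N`, the supremum of `c_A / ‖A‖` -/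
noncomputable def cN (N : ℕ) : ℝ≥0∞ :=
  ⨆ A ∈ {A : Matrix (Fin (N + 1)) (Fin (N + 1)) ℂ | IsSAToeplitz A ∧ A ≠ 0},
    cA A / ENNReal.ofReal (opNorm A)

/-! ### Exponentials -/

theorem e_cont (n : ℤ) : Continuous (e n) := by
  unfold e
  fun_prop

theorem e_norm (n : ℤ) (t : ℝ) : ‖e n t‖ = 1 := by
  unfold e
  have h : -(((n : ℝ) * t : ℝ) : ℂ) * Complex.I = ((-((n : ℝ) * t) : ℝ) : ℂ) * Complex.I := by
    push_cast; ring
  rw [h, Complex.norm_exp_ofReal_mul_I]

theorem e_add (n : ℤ) (s t : ℝ) : e n (s + t) = e n s * e n t := by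
  unfold e
  rw [← Complex.exp_add]
  congr 1
  push_cast
  ring

theorem e_two_pi (n : ℤ) : e n (2 * π) = 1 := by
  unfold e
  rw [Complex.exp_eq_one_iff]
  refine ⟨-n, ?_⟩
  push_cast
  ring

theorem e_per (n : ℤ) (t : ℝ) : e n (t + 2 * π) = e n t := by
  rw [e_add, e_two_pi, mul_one]

theorem e_sum (n : ℤ) (t : ℝ) : e n t + e n (-t) = ((2 * cos (n * t) : ℝ) : ℂ) := by
  unfold e
  have h := Complex.two_cos (((n : ℝ) * t : ℝ) : ℂ)
  push_cast at h ⊢
  rw [h, add_comm]
  congr 2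
  ring

theorem e_neg_neg (n : ℤ) (t : ℝ) : e n (-t) = e (-n) t := by
  unfold e
  congr 1
  push_cast
  ring

theorem e_mul (q n : ℤ) (t : ℝ) : e (q * n) t = e n (q * t) := by
  unfold e
  congr 1
  push_cast
  ring

/-! ### Step functions -/

section step

variable {σ : ℝ → ℝ}

/-- the cosine coefficients of the even function `σ (cos t)` -/
noncomputable def bb (σ : ℝ → ℝ) (k : ℤ) : ℝ := (1 / π) * ∫ t in (0)..π, σ (cos t) * cos (k * t)

/-- the dilated function `σ (cos (q t))` -/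
noncomputable def psi (σ : ℝ → ℝ) (q : ℕ) (t : ℝ) : ℂ := ((σ (cos (q * t)) : ℝ) : ℂ)

theorem psi_meas (hm : Measurable σ) (q : ℕ) : Measurable (psi σ q) := by
  unfold psi
  exact Complex.measurable_ofReal.comp (hm.comp (by fun_prop))

theorem psi_bdd (h1 : ∀ x, |σ x| ≤ 1) (q : ℕ) (t : ℝ) : ‖psi σ q t‖ ≤ 1 := by
  unfold psi
  rw [Complex.norm_real]
  exact h1 _

theorem psi_per (q : ℕ) (t : ℝ) : psi σ q (t + 2 * π) = psi σ q t := by
  unfold psi
  have h : (q : ℝ) * (t + 2 * π) = q * t + q * (2 * π) := by ring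
  rw [h, cos_add_nat_mul_two_pi]

theorem psi_int (hm : Measurable σ) (h1 : ∀ x, |σ x| ≤ 1) (q : ℕ) (n : ℤ) (a b : ℝ) :
    IntervalIntegrable (fun t => psi σ q t * e n t) volume a b := by
  rw [intervalIntegrable_iff]
  refine Measure.integrableOn_of_bounded (M := 1) (by simp) ?_ ?_
  · exact ((psi_meas hm q).mul (e_cont n).measurable).aestronglyMeasurable
  · refine Filter.Eventually.of_forall fun t => ?_
    rw [norm_mul, e_norm, mul_one]
    exact psi_bdd h1 q t

theorem coeff_eq (f : ℝ → ℂ) (n : ℤ) :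
    coeff f n = (1 / (2 * π) : ℝ) * ∫ t in (0)..(2 * π), f t * e n t := by
  unfold coeff μ
  rw [intervalIntegral.integral_of_le (by positivity)]

/-- the coefficients of the undilated function -/
theorem coeff_one (hm : Measurable σ) (h1 : ∀ x, |σ x| ≤ 1) (k : ℤ) :
    coeff (psi σ 1) k = (bb σ k : ℂ) := by
  rw [coeff_eq, ← intervalIntegral.integral_add_adjacent_intervals (psi_int hm h1 1 k 0 π)
    (psi_int hm h1 1 k π (2 * π))]
  have h2 := intervalIntegral.integral_comp_sub_left (a := 0) (b := π)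
    (fun t => psi σ 1 t * e k t) (2 * π)
  have e1 : 2 * π - π = π := by ring
  rw [e1, sub_zero] at h2
  rw [← h2]
  have hI := (psi_int hm h1 1 k (2 * π) π).comp_sub_left (2 * π)
  rw [sub_self, e1] at hI
  rw [← intervalIntegral.integral_add (psi_int hm h1 1 k 0 π) hI]
  have h3 : ∀ t : ℝ, psi σ 1 t * e k t + psi σ 1 (2 * π - t) * e k (2 * π - t) =
      ((2 * (σ (cos t) * cos (k * t)) : ℝ) : ℂ) := by
    intro t
    have h4 : psi σ 1 (2 * π - t) = psi σ 1 t := by
      unfold psi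
      simp [cos_two_pi_sub]
    have h5 : e k (2 * π - t) = e k (-t) := by
      have : 2 * π - t = -t + 2 * π := by ring
      rw [this, e_per]
    rw [h4, h5, ← mul_add, e_sum]
    unfold psi
    push_cast
    simp
    ring
  simp_rw [h3]
  rw [intervalIntegral.integral_ofReal, intervalIntegral.integral_const_mul, ← Complex.ofReal_mul]
  congr 1
  unfold bb
  have := pi_pos
  field_simp

/-- the coefficients of the dilated function -/
theorem coeff_dil (hm : Measurable σ) (h1 : ∀ x, |σ x| ≤ 1) {q : ℕ} (hq : 0 < q) (n : ℤ) :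
    coeff (psi σ q) n = if (q : ℤ) ∣ n then (bb σ (n / q) : ℂ) else 0 := by
  have hqr : (0 : ℝ) < q := by exact_mod_cast hq
  split_ifs with h
  · obtain ⟨k, rfl⟩ := h
    rw [Int.mul_ediv_cancel_left _ (by exact_mod_cast hq.ne'), ← coeff_one hm h1, coeff_eq,
      coeff_eq]
    congr 1
    have h2 : ∀ t : ℝ, psi σ q t * e ((q : ℤ) * k) t =
        (fun u => psi σ 1 u * e k u) ((q : ℝ) * t) := by
      intro t
      simp only [psi, e_mul, Nat.cast_one, one_mul, Int.cast_natCast]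
    simp_rw [h2]
    have h2' := intervalIntegral.integral_comp_mul_left (a := 0) (b := 2 * π)
      (fun u => psi σ 1 u * e k u) hqr.ne'
    rw [h2']
    have hP : Function.Periodic (fun u => psi σ 1 u * e k u) (2 * π) := by
      intro t
      simp only [psi_per, e_per]
    have h3 := hP.intervalIntegral_add_zsmul_eq q 0 (fun a b => psi_int hm h1 1 k a b)
    rw [zero_add, zero_add] at h3
    have e1 : ((q : ℤ) • (2 * π) : ℝ) = (q : ℝ) * (2 * π) := by simp
    rw [e1] at h3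
    rw [mul_zero, h3]
    simp only [natCast_zsmul, nsmul_eq_mul, Complex.real_smul]
    push_cast
    rw [← mul_assoc, inv_mul_cancel₀ (by exact_mod_cast hqr.ne'), one_mul]
  · rw [coeff_eq]
    set G : ℝ → ℂ := fun t => psi σ q t * e n t with hG
    set ω : ℂ := e n (2 * π / q) with hω
    have h2 : ∀ t, G (t + 2 * π / q) = ω * G t := by
      intro t
      simp only [hG]
      rw [e_add]
      have : psi σ q (t + 2 * π / q) = psi σ q t := by
        unfold psi
        have h3 : (q : ℝ) * (t + 2 * π / q) = q * t + 2 * π := by field_simp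
        rw [h3, cos_add_two_pi]
      rw [this]
      ring
    have hP : Function.Periodic G (2 * π) := by
      intro t
      simp only [hG, psi_per, e_per]
    have h4 : ∫ t in (0)..(2 * π), G (t + 2 * π / q) = ∫ t in (0)..(2 * π), G t := by
      rw [intervalIntegral.integral_comp_add_right]
      have := hP.intervalIntegral_add_eq (2 * π / q) 0
      rw [zero_add, add_comm] at this
      rw [zero_add]
      exact this
    simp_rw [h2] at h4
    rw [intervalIntegral.integral_const_mul] at h4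
    have h5 : ω ≠ 1 := by
      intro hcon
      rw [hω] at hcon
      unfold e at hcon
      rw [Complex.exp_eq_one_iff] at hcon
      obtain ⟨m, hm'⟩ := hcon
      apply h
      have hpi : (2 * π * Complex.I : ℂ) ≠ 0 := by
        simp [pi_ne_zero]
      have hq' : (q : ℂ) ≠ 0 := by exact_mod_cast hq.ne'
      have h6 : (-(n : ℂ)) * (2 * π * Complex.I) = (m * q : ℂ) * (2 * π * Complex.I) := by
        push_cast at hm'
        field_simp at hm'
        linear_combination (2 * (π : ℂ) * Complex.I) * hm'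
      have h7 : (-(n : ℂ)) = m * q := mul_right_cancel₀ hpi h6
      have h8 : -n = m * q := by exact_mod_cast h7
      exact ⟨-m, by linarith⟩
    have h6 : ∫ t in (0)..(2 * π), G t = 0 := by
      have : (ω - 1) * ∫ t in (0)..(2 * π), G t = 0 := by rw [sub_mul, h4]; ring
      rcases mul_eq_zero.1 this with h7 | h7
      · exact absurd (sub_eq_zero.1 h7) h5
      · exact h7
    rw [h6, mul_zero]

end step


/-! ### The norm of a dilated Toeplitz matrix -/

/-- sums over `Fin (M * q)` as double sums -/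
theorem sum_double (M q : ℕ) (F : ℕ → ℂ) :
    ∑ k ∈ range (M * q), F k = ∑ s ∈ range M, ∑ r ∈ range q, F (r + q * s) := by
  rw [← Fin.sum_univ_eq_sum_range F (M * q), ← Equiv.sum_comp finProdFinEquiv,
    Fintype.sum_prod_type, ← Fin.sum_univ_eq_sum_range (fun s => ∑ r ∈ range q, F (r + q * s)) M]
  refine sum_congr rfl fun s _ => ?_
  rw [← Fin.sum_univ_eq_sum_range (fun r => F (r + q * s)) q]
  rfl

theorem sum_double_real (M q : ℕ) (F : ℕ → ℝ) :
    ∑ k ∈ range (M * q), F k = ∑ s ∈ range M, ∑ r ∈ range q, F (r + q * s) := by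
  rw [← Fin.sum_univ_eq_sum_range F (M * q), ← Equiv.sum_comp finProdFinEquiv,
    Fintype.sum_prod_type, ← Fin.sum_univ_eq_sum_range (fun s => ∑ r ∈ range q, F (r + q * s)) M]
  refine sum_congr rfl fun s _ => ?_
  rw [← Fin.sum_univ_eq_sum_range (fun r => F (r + q * s)) q]
  rfl

theorem opNorm_le {N q M : ℕ} (hq : 0 < q) (hN : N + 1 ≤ M * q) (b : ℤ → ℝ) (κ : ℝ)
    (hκ : 0 ≤ κ)
    (hB : ∀ x : ℕ → ℂ, ∑ t ∈ range M, ‖∑ s ∈ range M, (b ((t : ℤ) - s) : ℂ) * x s‖ ^ 2 ≤
      κ ^ 2 * ∑ s ∈ range M, ‖x s‖ ^ 2)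
    (A : Matrix (Fin (N + 1)) (Fin (N + 1)) ℂ)
    (hA : ∀ j k : Fin (N + 1), A j k =
      if (q : ℤ) ∣ ((j : ℤ) - k) then (b (((j : ℤ) - k) / q) : ℂ) else 0) :
    opNorm A ≤ κ := by
  refine ContinuousLinearMap.opNorm_le_bound _ hκ fun x => ?_
  set y : ℕ → ℂ := fun k => if h : k < N + 1 then x ⟨k, h⟩ else 0 with hy
  have hy1 : ∀ k : Fin (N + 1), y k = x k := fun k => dif_pos k.2
  have hy0 : ∀ k : ℕ, k ∉ range (N + 1) → y k = 0 := fun k hk => dif_neg (by simpa using hk)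
  -- the entries of `A x`
  have h1 : ∀ j : ℕ, ∀ hj : j < N + 1, (toEuclideanCLM (n := Fin (N + 1)) (𝕜 := ℂ) A x) ⟨j, hj⟩ =
      ∑ k ∈ range (M * q), (if (q : ℤ) ∣ ((j : ℤ) - k) then (b (((j : ℤ) - k) / q) : ℂ) else 0) *
        y k := by
    intro j hj
    have h2 : (toEuclideanCLM (n := Fin (N + 1)) (𝕜 := ℂ) A x) ⟨j, hj⟩ =
        ∑ k : Fin (N + 1), A ⟨j, hj⟩ k * x k := rfl
    rw [h2]
    have h3 : ∑ k : Fin (N + 1), A ⟨j, hj⟩ k * x k = ∑ k ∈ range (N + 1),
        (if (q : ℤ) ∣ ((j : ℤ) - k) then (b (((j : ℤ) - k) / q) : ℂ) else 0) * y k := by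
      rw [← Fin.sum_univ_eq_sum_range (fun k => (if (q : ℤ) ∣ ((j : ℤ) - k) then
        (b (((j : ℤ) - k) / q) : ℂ) else 0) * y k) (N + 1)]
      refine sum_congr rfl fun k _ => ?_
      rw [hA, hy1]
    rw [h3]
    refine sum_subset (range_subset_range.2 hN) fun k _ hk => ?_
    rw [hy0 k hk, mul_zero]
  have h4 : ∀ r < q, ∀ t : ℕ, ∑ k ∈ range (M * q),
      (if (q : ℤ) ∣ (((r + q * t : ℕ) : ℤ) - k) then
        (b ((((r + q * t : ℕ) : ℤ) - k) / q) : ℂ) else 0) * y k =
      ∑ s ∈ range M, (b ((t : ℤ) - s) : ℂ) * y (r + q * s) := by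
    intro r hr t
    rw [sum_double]
    refine sum_congr rfl fun s _ => ?_
    rw [sum_eq_single r]
    · have h5 : ((r + q * t : ℕ) : ℤ) - ((r + q * s : ℕ) : ℤ) = q * ((t : ℤ) - s) := by
        push_cast; ring
      rw [h5, if_pos (dvd_mul_right _ _), Int.mul_ediv_cancel_left _ (by exact_mod_cast hq.ne')]
    · intro r' hr' hne
      rw [if_neg, zero_mul]
      intro hd
      have h5 : ((r + q * t : ℕ) : ℤ) - ((r' + q * s : ℕ) : ℤ) =
          ((r : ℤ) - r') + q * ((t : ℤ) - s) := by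
        push_cast; ring
      rw [h5, dvd_add_left (dvd_mul_right _ _)] at hd
      have hr'' := mem_range.1 hr'
      have h6 : (r : ℤ) - r' = 0 := by
        apply Int.eq_zero_of_abs_lt_dvd hd
        rw [abs_lt]
        constructor <;> omega
      exact hne (by omega)
    · intro h
      exact absurd (mem_range.2 hr) h
  -- the norms
  have h7 : ‖toEuclideanCLM (n := Fin (N + 1)) (𝕜 := ℂ) A x‖ ^ 2 ≤ κ ^ 2 * ‖x‖ ^ 2 := by
    rw [EuclideanSpace.norm_sq_eq, EuclideanSpace.norm_sq_eq]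
    have h8 : ∑ k : Fin (N + 1), ‖x k‖ ^ 2 = ∑ k ∈ range (M * q), ‖y k‖ ^ 2 := by
      have h9 : ∑ k : Fin (N + 1), ‖x k‖ ^ 2 = ∑ k ∈ range (N + 1), ‖y k‖ ^ 2 := by
        rw [← Fin.sum_univ_eq_sum_range (fun k => ‖y k‖ ^ 2) (N + 1)]
        refine sum_congr rfl fun k _ => ?_
        rw [hy1]
      rw [h9]
      refine sum_subset (range_subset_range.2 hN) fun k _ hk => ?_
      rw [hy0 k hk]
      simp
    have h10 : ∑ j : Fin (N + 1), ‖(toEuclideanCLM (n := Fin (N + 1)) (𝕜 := ℂ) A x) j‖ ^ 2 ≤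
        ∑ j ∈ range (M * q), ‖∑ k ∈ range (M * q), (if (q : ℤ) ∣ ((j : ℤ) - k) then
          (b (((j : ℤ) - k) / q) : ℂ) else 0) * y k‖ ^ 2 := by
      have h11 : ∑ j : Fin (N + 1), ‖(toEuclideanCLM (n := Fin (N + 1)) (𝕜 := ℂ) A x) j‖ ^ 2 =
          ∑ j ∈ range (N + 1), ‖∑ k ∈ range (M * q), (if (q : ℤ) ∣ ((j : ℤ) - k) then
          (b (((j : ℤ) - k) / q) : ℂ) else 0) * y k‖ ^ 2 := by
        rw [← Fin.sum_univ_eq_sum_range (fun j => ‖∑ k ∈ range (M * q),
          (if (q : ℤ) ∣ ((j : ℤ) - k) then (b (((j : ℤ) - k) / q) : ℂ) else 0) * y k‖ ^ 2) (N + 1)]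
        exact sum_congr rfl fun j _ => by rw [← h1 j j.2]
      rw [h11]
      exact sum_le_sum_of_subset_of_nonneg (range_subset_range.2 hN) fun _ _ _ => by positivity
    refine h10.trans ?_
    rw [h8, sum_double_real, sum_double_real, sum_comm, sum_comm (s := range M), mul_sum]
    refine sum_le_sum fun r hr => ?_
    have h12 := hB fun s => y (r + q * s)
    refine le_trans (le_of_eq ?_) h12
    refine sum_congr rfl fun t _ => ?_
    rw [h4 r (mem_range.1 hr) t]
  have h13 : ‖toEuclideanCLM (n := Fin (N + 1)) (𝕜 := ℂ) A x‖ ^ 2 ≤ (κ * ‖x‖) ^ 2 := by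
    rw [mul_pow]; exact h7
  exact (pow_le_pow_iff_left₀ (norm_nonneg _) (by positivity) two_ne_zero).1 h13

/-- it is enough to bound real vectors -/
theorem complex_of_real {M : ℕ} {b : ℤ → ℝ} {c : ℝ}
    (h : ∀ u : ℕ → ℝ, ∑ t ∈ range M, (∑ s ∈ range M, b ((t : ℤ) - s) * u s) ^ 2 ≤
      c * ∑ s ∈ range M, u s ^ 2) (x : ℕ → ℂ) :
    ∑ t ∈ range M, ‖∑ s ∈ range M, (b ((t : ℤ) - s) : ℂ) * x s‖ ^ 2 ≤
      c * ∑ s ∈ range M, ‖x s‖ ^ 2 := by
  have h1 : ∀ z : ℂ, ‖z‖ ^ 2 = z.re ^ 2 + z.im ^ 2 := by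
    intro z
    rw [← Complex.normSq_eq_norm_sq, Complex.normSq_apply]
    ring
  have h2 := h fun s => (x s).re
  have h3 := h fun s => (x s).im
  simp_rw [h1, sum_add_distrib, mul_add]
  refine add_le_add ?_ ?_
  · refine le_trans (le_of_eq ?_) h2
    refine sum_congr rfl fun t _ => ?_
    congr 1
    rw [Complex.re_sum]
    exact sum_congr rfl fun s _ => by simp
  · refine le_trans (le_of_eq ?_) h3
    refine sum_congr rfl fun t _ => ?_
    congr 1
    rw [Complex.im_sum]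
    exact sum_congr rfl fun s _ => by simp

/-! ### The dual bound `c_A ≥ 1` -/

theorem one_le_cA {N q m : ℕ} (hmq : m * q ≤ N) {σ : ℝ → ℝ} (hm : Measurable σ)
    (h1 : ∀ x, |σ x| ≤ 1) (d : ℕ → ℝ)
    (hpsi : ∀ t : ℝ, |∑ k ∈ range (m + 1), d k * cos (k * t)| =
      σ (cos t) * ∑ k ∈ range (m + 1), d k * cos (k * t))
    (t₀ : ℝ) (ht₀ : t₀ ∈ Set.Ioo 0 (2 * π))
    (hne : ∑ k ∈ range (m + 1), d k * cos (k * (q * t₀)) ≠ 0)
    (A : Matrix (Fin (N + 1)) (Fin (N + 1)) ℂ)
    (hA : ∀ j k : Fin (N + 1), A j k = coeff (psi σ q) ((j : ℤ) - k)) :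
    1 ≤ cA A := by
  unfold cA
  refine le_iInf₂ fun f hf => ?_
  obtain ⟨hfm, hfb, hfA⟩ := hf
  set P : ℝ → ℝ := fun t => ∑ k ∈ range (m + 1), d k * cos (k * (q * t)) with hP
  have hPc : Continuous P := by
    rw [hP]; fun_prop
  set Cst : ℝ := (eLpNorm f ⊤ μ).toReal with hC
  have hCb : ∀ᵐ t ∂μ, ‖f t‖ ≤ Cst := by
    have h2 : ∀ᵐ t ∂μ, ‖f t‖ₑ ≤ eLpNormEssSup f μ := enorm_ae_le_eLpNormEssSup f μ
    filter_upwards [h2] with t ht
    rw [← eLpNorm_exponent_top] at ht
    have := ENNReal.toReal_mono hfb.ne ht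
    rw [hC]
    rwa [toReal_enorm] at this
  have hfin : IsFiniteMeasure μ := by
    unfold μ
    infer_instance
  have hfi : Integrable f μ := by
    exact Integrable.mono' (integrable_const Cst) hfm hCb
  have hgi : ∀ g : ℝ → ℂ, Continuous g → (∃ K, ∀ t, ‖g t‖ ≤ K) →
      Integrable (fun t => f t * g t) μ := by
    rintro g hg ⟨K, hK⟩
    exact hfi.mul_bdd hg.aestronglyMeasurable (Filter.Eventually.of_forall hK)
  have hpi : Integrable (psi σ q) μ :=
    Integrable.mono' (integrable_const 1) (psi_meas hm q).aestronglyMeasurable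
      (Filter.Eventually.of_forall fun t => psi_bdd h1 q t)
  have hpgi : ∀ g : ℝ → ℂ, Continuous g → (∃ K, ∀ t, ‖g t‖ ≤ K) →
      Integrable (fun t => psi σ q t * g t) μ := by
    rintro g hg ⟨K, hK⟩
    exact hpi.mul_bdd hg.aestronglyMeasurable (Filter.Eventually.of_forall hK)
  -- equality of coefficients
  have hco : ∀ n : ℤ, |n| ≤ N → ∫ t, f t * e n t ∂μ = ∫ t, psi σ q t * e n t ∂μ := by
    intro n hn
    have h3 : coeff f n = coeff (psi σ q) n := by
      rcases le_total 0 n with h | h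
      · have hb : n.toNat < N + 1 := by
          have := abs_of_nonneg h
          omega
        have e1 := hfA ⟨n.toNat, hb⟩ 0
        have e2 := hA ⟨n.toNat, hb⟩ 0
        have e3 : ((⟨n.toNat, hb⟩ : Fin (N + 1)) : ℤ) - ((0 : Fin (N + 1)) : ℤ) = n := by
          simp [h]
        rw [e3] at e1 e2
        rw [← e1, ← e2]
      · have hb : (-n).toNat < N + 1 := by
          have := abs_of_nonpos h
          omega
        have e1 := hfA 0 ⟨(-n).toNat, hb⟩
        have e2 := hA 0 ⟨(-n).toNat, hb⟩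
        have e3 : ((0 : Fin (N + 1)) : ℤ) - ((⟨(-n).toNat, hb⟩ : Fin (N + 1)) : ℤ) = n := by
          simp [h]
        rw [e3] at e1 e2
        rw [← e1, ← e2]
    unfold coeff at h3
    refine mul_left_cancel₀ ?_ h3
    have := pi_pos
    simp [pi_ne_zero]
  have hcos : ∀ n : ℕ, n ≤ N → ∫ t, f t * ((cos (n * t) : ℝ) : ℂ) ∂μ =
      ∫ t, psi σ q t * ((cos (n * t) : ℝ) : ℂ) ∂μ := by
    intro n hn
    have h3 : ∀ t : ℝ, ((cos (n * t) : ℝ) : ℂ) = (1 / 2) * e n t + (1 / 2) * e (-n) t := by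
      intro t
      have := e_sum n t
      rw [e_neg_neg] at this
      have h4 : ((2 * cos (((n : ℤ) : ℝ) * t) : ℝ) : ℂ) = 2 * ((cos (n * t) : ℝ) : ℂ) := by
        push_cast; ring
      rw [h4] at this
      linear_combination (-1 / 2 : ℂ) * this
    simp_rw [h3, mul_add, mul_left_comm _ (1 / 2 : ℂ)]
    have hb : ∀ k : ℤ, ∃ K, ∀ t, ‖e k t‖ ≤ K := fun k => ⟨1, fun t => (e_norm k t).le⟩
    rw [integral_add ((hgi _ (e_cont _) (hb _)).const_mul _) ((hgi _ (e_cont _) (hb _)).const_mul _),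
      integral_add ((hpgi _ (e_cont _) (hb _)).const_mul _)
        ((hpgi _ (e_cont _) (hb _)).const_mul _),
      integral_const_mul, integral_const_mul, integral_const_mul, integral_const_mul,
      hco n (by simpa using hn), hco (-n) (by simpa using hn)]
  -- pairing with `P`
  have hcb : ∀ c : ℝ, ∀ n : ℕ, ∃ K, ∀ t : ℝ, ‖((c * cos (n * t) : ℝ) : ℂ)‖ ≤ K := by
    intro c n
    refine ⟨|c|, fun t => ?_⟩
    rw [Complex.norm_real, norm_mul]
    have := abs_cos_le_one (n * t)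
    calc ‖c‖ * ‖cos (n * t)‖ ≤ |c| * 1 := mul_le_mul_of_nonneg_left this (abs_nonneg _)
      _ = |c| := mul_one _
  have hPe : ∀ t, ((P t : ℝ) : ℂ) = ∑ k ∈ range (m + 1),
      ((d k * cos ((k * q : ℕ) * t) : ℝ) : ℂ) := by
    intro t
    rw [hP, Complex.ofReal_sum]
    refine sum_congr rfl fun k _ => ?_
    congr 3
    push_cast
    ring
  have hpair : ∫ t, f t * ((P t : ℝ) : ℂ) ∂μ = ∫ t, psi σ q t * ((P t : ℝ) : ℂ) ∂μ := by
    simp_rw [hPe, mul_sum]
    rw [integral_finsetSum, integral_finsetSum]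
    · refine sum_congr rfl fun k hk => ?_
      have hk' : k * q ≤ N := (Nat.mul_le_mul_right q (Nat.lt_succ_iff.1 (mem_range.1 hk))).trans hmq
      have h5 := hcos (k * q) hk'
      have h6 : ∀ g : ℝ → ℂ, (fun t => g t * ((d k * cos ((k * q : ℕ) * t) : ℝ) : ℂ)) =
          fun t => (d k : ℂ) * (g t * ((cos ((k * q : ℕ) * t) : ℝ) : ℂ)) := by
        intro g
        funext t
        push_cast
        ring
      rw [h6, h6, integral_const_mul, integral_const_mul, h5]
    · exact fun k _ => hpgi _ (by fun_prop) (hcb _ _)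
    · exact fun k _ => hgi _ (by fun_prop) (hcb _ _)
  have hpsiP : ∫ t, psi σ q t * ((P t : ℝ) : ℂ) ∂μ = ((∫ t, |P t| ∂μ : ℝ) : ℂ) := by
    rw [← integral_complex_ofReal]
    congr 1
    funext t
    have := hpsi (q * t)
    simp only [hP]
    rw [this]
    unfold psi
    push_cast
    rfl
  have hPb : ∃ K, ∀ t, |P t| ≤ K := by
    refine ⟨∑ k ∈ range (m + 1), |d k|, fun t => ?_⟩
    rw [hP]
    refine (abs_sum_le_sum_abs _ _).trans (sum_le_sum fun k _ => ?_)
    rw [abs_mul]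
    exact mul_le_of_le_one_right (abs_nonneg _) (abs_cos_le_one _)
  have hPi : Integrable (fun t => |P t|) μ := by
    obtain ⟨K, hK⟩ := hPb
    exact Integrable.mono' (integrable_const K) (by fun_prop)
      (Filter.Eventually.of_forall fun t => by simpa using hK t)
  have hPpos : 0 < ∫ t, |P t| ∂μ := by
    have h7 : ∫ t, |P t| ∂μ = ∫ t in (0)..(2 * π), |P t| := by
      rw [intervalIntegral.integral_of_le (by positivity)]; rfl
    rw [h7]
    refine intervalIntegral.integral_pos (by positivity) (by fun_prop) (fun t _ => abs_nonneg _)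
      ⟨t₀, ⟨ht₀.1.le, ht₀.2.le⟩, abs_pos.2 hne⟩
  have hup : ∫ t, |P t| ∂μ ≤ Cst * ∫ t, |P t| ∂μ := by
    have h8 : ‖∫ t, f t * ((P t : ℝ) : ℂ) ∂μ‖ = ∫ t, |P t| ∂μ := by
      rw [hpair, hpsiP, Complex.norm_real, norm_of_nonneg hPpos.le]
    rw [← h8]
    refine (norm_integral_le_of_norm_le (hPi.const_mul Cst) ?_).trans (le_of_eq ?_)
    · filter_upwards [hCb] with t ht
      rw [norm_mul, Complex.norm_real]
      exact mul_le_mul_of_nonneg_right ht (abs_nonneg _)
    · rw [integral_const_mul, h8]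
  have h9 : 1 ≤ Cst := by
    by_contra hlt
    push Not at hlt
    have : Cst * ∫ t, |P t| ∂μ < 1 * ∫ t, |P t| ∂μ := mul_lt_mul_of_pos_right hlt hPpos
    linarith
  rw [hC] at h9
  have h10 : ENNReal.ofReal 1 ≤ ENNReal.ofReal (eLpNorm f ⊤ μ).toReal := ENNReal.ofReal_le_ofReal h9
  rwa [ENNReal.ofReal_one, ENNReal.ofReal_toReal hfb.ne] at h10


/-- From a good step function of order `m` to all `N` with `m q ≤ N < (m + 1) q`. -/
theorem final {N q m : ℕ} (hq : 0 < q) (hmq : m * q ≤ N) (hN : N + 1 ≤ (m + 1) * q)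
    {σ : ℝ → ℝ} (hm : Measurable σ) (h1 : ∀ x, |σ x| ≤ 1) (d : ℕ → ℝ)
    (hpsi : ∀ t : ℝ, |∑ k ∈ range (m + 1), d k * cos (k * t)| =
      σ (cos t) * ∑ k ∈ range (m + 1), d k * cos (k * t))
    (t₀ : ℝ) (ht₀ : t₀ ∈ Set.Ioo 0 (2 * π))
    (hne : ∑ k ∈ range (m + 1), d k * cos (k * (q * t₀)) ≠ 0)
    (s : ℤ → ℝ) (hs : ∀ k : ℤ, |k| ≤ m → bb σ k = 2 / π * s k)
    (hB : ∀ u : ℕ → ℝ, ∑ t ∈ range (m + 1), (∑ r ∈ range (m + 1), s ((t : ℤ) - r) * u r) ^ 2 ≤
      (99 / 100) * ∑ r ∈ range (m + 1), u r ^ 2) :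
    ENNReal.ofReal (π / 2) < cN N := by
  have hp := pi_pos
  set A : Matrix (Fin (N + 1)) (Fin (N + 1)) ℂ :=
    Matrix.of fun j k => coeff (psi σ q) ((j : ℤ) - k) with hA
  have hAe : ∀ j k : Fin (N + 1), A j k = coeff (psi σ q) ((j : ℤ) - k) := fun j k => rfl
  set κ : ℝ := 2 / π * (996 / 1000) with hκ
  have hκ0 : 0 < κ := by positivity
  -- norm
  have h2 : opNorm A ≤ κ := by
    set b : ℤ → ℝ := fun k => if |k| ≤ m then bb σ k else 0 with hb
    have hreal : ∀ u : ℕ → ℝ, ∑ t ∈ range (m + 1), (∑ r ∈ range (m + 1),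
        b ((t : ℤ) - r) * u r) ^ 2 ≤ κ ^ 2 * ∑ r ∈ range (m + 1), u r ^ 2 := by
      intro u
      have h3 := hB u
      have h4 : ∑ t ∈ range (m + 1), (∑ r ∈ range (m + 1),
          b ((t : ℤ) - r) * u r) ^ 2 =
          (2 / π) ^ 2 * ∑ t ∈ range (m + 1), (∑ r ∈ range (m + 1), s ((t : ℤ) - r) * u r) ^ 2 := by
        rw [mul_sum]
        refine sum_congr rfl fun t ht => ?_
        rw [← mul_pow, mul_sum]
        congr 1
        refine sum_congr rfl fun r hr => ?_
        have h5 : |(t : ℤ) - r| ≤ m := by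
          have a1 := mem_range.1 ht
          have a2 := mem_range.1 hr
          rw [abs_le]
          constructor <;> omega
        simp only [hb]
        rw [if_pos h5, hs _ h5]
        ring
      rw [h4]
      have h6 : 0 ≤ ∑ r ∈ range (m + 1), u r ^ 2 := sum_nonneg fun _ _ => sq_nonneg _
      have h7 : κ ^ 2 = (2 / π) ^ 2 * (992016 / 1000000) := by rw [hκ]; ring
      rw [h7, mul_assoc]
      apply mul_le_mul_of_nonneg_left _ (by positivity)
      linarith
    have hcomp : ∀ x : ℕ → ℂ, ∑ t ∈ range (m + 1), ‖∑ s ∈ range (m + 1),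
        (b ((t : ℤ) - s) : ℂ) * x s‖ ^ 2 ≤ κ ^ 2 * ∑ s ∈ range (m + 1), ‖x s‖ ^ 2 :=
      fun x => complex_of_real hreal x
    have hent : ∀ j k : Fin (N + 1), A j k =
        if (q : ℤ) ∣ ((j : ℤ) - k) then (b (((j : ℤ) - k) / q) : ℂ) else 0 := by
      intro j k
      rw [hAe, coeff_dil hm h1 hq]
      by_cases h3 : (q : ℤ) ∣ ((j : ℤ) - k)
      · rw [if_pos h3, if_pos h3]
        simp only [hb]
        rw [if_pos]
        obtain ⟨c, hc⟩ := h3
        rw [hc, Int.mul_ediv_cancel_left _ (by exact_mod_cast hq.ne')]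
        have a1 := j.2
        have a2 := k.2
        have a3 : (q : ℤ) * c < (m + 1) * q := by
          rw [← hc]
          have : ((N + 1 : ℕ) : ℤ) ≤ (((m + 1) * q : ℕ) : ℤ) := by exact_mod_cast hN
          push_cast at this
          omega
        have a4 : -((m + 1) * q : ℤ) < q * c := by
          rw [← hc]
          have : ((N + 1 : ℕ) : ℤ) ≤ (((m + 1) * q : ℕ) : ℤ) := by exact_mod_cast hN
          push_cast at this
          omega
        have hq' : (0 : ℤ) < q := by exact_mod_cast hq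
        have a5 : c < m + 1 := by
          by_contra hcon
          push Not at hcon
          nlinarith
        have a6 : -(m + 1 : ℤ) < c := by
          by_contra hcon
          push Not at hcon
          nlinarith
        rw [abs_le]
        constructor <;> omega
      · rw [if_neg h3, if_neg h3]
    exact opNorm_le (M := m + 1) hq hN b κ hκ0.le hcomp A hent
  -- dual bound
  have h3 : 1 ≤ cA A := one_le_cA hmq hm h1 d hpsi t₀ ht₀ hne A hAe
  have hA0 : A ≠ 0 := by
    intro hcon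
    rw [hcon] at h3
    have h4 : cA (0 : Matrix (Fin (N + 1)) (Fin (N + 1)) ℂ) ≤ 0 := by
      unfold cA
      refine (iInf₂_le (0 : ℝ → ℂ) ?_).trans (by simp)
      refine ⟨aestronglyMeasurable_const, by simp, fun j k => ?_⟩
      simp [coeff]
    exact absurd (h3.trans h4) (by simp)
  have hAT : IsSAToeplitz A := by
    refine ⟨fun n => coeff (psi σ q) n, fun n => ?_, fun j k => rfl⟩
    simp only [coeff_dil hm h1 hq, Int.dvd_neg]
    split_ifs with h4
    · obtain ⟨c, rfl⟩ := h4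
      have hq' : (q : ℤ) ≠ 0 := by exact_mod_cast hq.ne'
      rw [← mul_neg, Int.mul_ediv_cancel_left _ hq', Int.mul_ediv_cancel_left _ hq']
      rw [Complex.conj_ofReal]
      congr 1
      unfold bb
      congr 2
      funext t
      congr 1
      push_cast
      rw [neg_mul, cos_neg]
    · simp
  have h5 : cA A / ENNReal.ofReal (opNorm A) ≤ cN N :=
    le_iSup₂ (f := fun (A : Matrix (Fin (N + 1)) (Fin (N + 1)) ℂ)
      (_ : A ∈ {A : Matrix (Fin (N + 1)) (Fin (N + 1)) ℂ | IsSAToeplitz A ∧ A ≠ 0}) =>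
        cA A / ENNReal.ofReal (opNorm A)) A ⟨hAT, hA0⟩
  refine lt_of_lt_of_le ?_ h5
  have h6 : ENNReal.ofReal κ⁻¹ ≤ cA A / ENNReal.ofReal (opNorm A) := by
    rw [ENNReal.ofReal_inv_of_pos hκ0, ← one_div]
    exact ENNReal.div_le_div h3 (ENNReal.ofReal_le_ofReal h2)
  refine lt_of_lt_of_le ?_ h6
  rw [ENNReal.ofReal_lt_ofReal_iff (by positivity)]
  rw [hκ, mul_inv, inv_div]
  nlinarith

/-! ### Cosine coefficients of step functions -/

/-- a primitive of `cos (k t)` -/
noncomputable def F (k : ℤ) (t : ℝ) : ℝ := if k = 0 then t else sin (k * t) / k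

theorem int_F (k : ℤ) (u v : ℝ) : ∫ t in u..v, cos (k * t) = F k v - F k u := by
  unfold F
  split_ifs with h
  · subst h
    simp
  · have hk : (k : ℝ) ≠ 0 := by exact_mod_cast h
    have := intervalIntegral.integral_comp_mul_left (a := u) (b := v) cos hk
    rw [this, integral_cos, smul_eq_mul]
    field_simp

theorem step_int {σ : ℝ → ℝ} (hm : Measurable σ) (h1 : ∀ x, |σ x| ≤ 1) (k : ℤ) (a b : ℝ) :
    IntervalIntegrable (fun t => σ (cos t) * cos (k * t)) volume a b := by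
  rw [intervalIntegrable_iff]
  refine Measure.integrableOn_of_bounded (M := 1) (by simp) ?_ ?_
  · exact ((hm.comp measurable_cos).mul (by fun_prop)).aestronglyMeasurable
  · refine Filter.Eventually.of_forall fun t => ?_
    rw [norm_mul]
    exact mul_le_one₀ (h1 _) (norm_nonneg _) (abs_cos_le_one _)

theorem piece {σ : ℝ → ℝ} {u v ε : ℝ} (huv : u ≤ v) (h : ∀ t ∈ Set.Ioc u v, σ (cos t) = ε)
    (k : ℤ) : ∫ t in u..v, σ (cos t) * cos (k * t) = ε * (F k v - F k u) := by
  rw [← int_F, ← intervalIntegral.integral_const_mul]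
  refine intervalIntegral.integral_congr_ae (Filter.Eventually.of_forall fun t ht => ?_)
  rw [Set.uIoc_of_le huv] at ht
  rw [h t ht]

theorem cos_between {u v : ℝ} (hu : 0 ≤ u) (hv : v ≤ π) {t : ℝ} (ht : t ∈ Set.Ioc u v) :
    cos v ≤ cos t ∧ cos t < cos u :=
  ⟨cos_le_cos_of_nonneg_of_le_pi (by linarith [ht.1]) hv ht.2,
    cos_lt_cos_of_nonneg_of_le_pi hu (by linarith [ht.2]) ht.1⟩

/-! ### The step function of order two -/

noncomputable def cb : ℝ := cos (14 * π / 15)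

noncomputable def σ2 (x : ℝ) : ℝ := if 1 / 2 ≤ x then 1 else if cb ≤ x then -1 else 1

theorem σ2_meas : Measurable σ2 := by
  unfold σ2
  exact Measurable.ite measurableSet_Ici measurable_const
    (Measurable.ite measurableSet_Ici measurable_const measurable_const)

theorem σ2_bdd (x : ℝ) : |σ2 x| ≤ 1 := by
  unfold σ2
  split_ifs <;> simp

theorem cb_lt : cb < 0 := by
  unfold cb
  have := pi_pos
  exact cos_neg_of_pi_div_two_lt_of_lt (by linarith) (by linarith)

theorem bb2 (k : ℤ) : bb σ2 k =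
    1 / π * (2 * F k (π / 3) - 2 * F k (14 * π / 15) + F k π - F k 0) := by
  have hp := pi_pos
  unfold bb
  have hi := step_int σ2_meas σ2_bdd k
  rw [← intervalIntegral.integral_add_adjacent_intervals (hi 0 (14 * π / 15)) (hi _ π),
    ← intervalIntegral.integral_add_adjacent_intervals (hi 0 (π / 3)) (hi _ (14 * π / 15)),
    piece (σ := σ2) (ε := 1) (by linarith) ?_ k, piece (σ := σ2) (ε := -1) (by linarith) ?_ k,
    piece (σ := σ2) (ε := 1) (by linarith) ?_ k]
  · ring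
  · intro t ht
    have h := cos_between (by linarith) le_rfl ht
    have h2 := cb_lt
    have h3 : cos t < cb := h.2
    unfold σ2
    rw [if_neg (by linarith), if_neg (by linarith)]
  · intro t ht
    have h := cos_between (by linarith) (by linarith) ht
    rw [cos_pi_div_three] at h
    have h3 : cb ≤ cos t := h.1
    unfold σ2
    rw [if_neg (by linarith), if_pos h3]
  · intro t ht
    have h := cos_between le_rfl (by linarith) ht
    rw [cos_pi_div_three] at h
    unfold σ2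
    rw [if_pos h.1]

/-- the scaled coefficients -/
noncomputable def s2 (k : ℤ) : ℝ :=
  if k = 0 then -π / 10 else if |k| = 1 then √3 / 2 - sin (π / 15)
    else (√3 / 2 + sin (2 * π / 15)) / 2

theorem s2_eq (k : ℤ) (hk : |k| ≤ 2) : bb σ2 k = 2 / π * s2 k := by
  have hp := pi_pos
  rw [bb2]
  have e1 : sin (14 * π / 15) = sin (π / 15) := by
    rw [← sin_pi_sub]; congr 1; ring
  have e2 : sin (2 * (14 * π / 15)) = -sin (2 * π / 15) := by
    have : 2 * (14 * π / 15) = 2 * π - 2 * π / 15 := by ring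
    rw [this, sin_two_pi_sub]
  have e3 : sin (2 * (π / 3)) = √3 / 2 := by
    have : 2 * (π / 3) = π - π / 3 := by ring
    rw [this, sin_pi_sub, sin_pi_div_three]
  have e4 : sin (2 * π) = 0 := sin_two_pi
  have h : k = -2 ∨ k = -1 ∨ k = 0 ∨ k = 1 ∨ k = 2 := by
    rw [abs_le] at hk; omega
  rcases h with rfl | rfl | rfl | rfl | rfl
  · simp only [F, s2]
    norm_num
    rw [e2, e3]
    field_simp
    ring
  · simp only [F, s2]
    norm_num
    rw [e1]
    field_simp
  · simp only [F, s2]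
    norm_num
    field_simp
    ring
  · simp only [F, s2]
    norm_num
    rw [e1]
    field_simp
  · simp only [F, s2]
    norm_num
    rw [e2, e3]
    field_simp
    ring

noncomputable def d2 (k : ℕ) : ℝ :=
  if k = 0 then 1 / 2 + cb / 2 else if k = 1 then -(1 / 2 + cb) else 1 / 2

theorem P2_eq (t : ℝ) : ∑ k ∈ range (2 + 1), d2 k * cos (k * t) =
    (cos t - 1 / 2) * (cos t - cb) := by
  simp only [sum_range_succ, range_zero, sum_empty, d2]
  norm_num
  rw [cos_two_mul]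
  ring

theorem psi2 (t : ℝ) : |∑ k ∈ range (2 + 1), d2 k * cos (k * t)| =
    σ2 (cos t) * ∑ k ∈ range (2 + 1), d2 k * cos (k * t) := by
  rw [P2_eq]
  have h := cb_lt
  unfold σ2
  split_ifs with h1 h2
  · rw [abs_of_nonneg, one_mul]
    exact mul_nonneg (by linarith) (by linarith)
  · rw [abs_of_nonpos, neg_one_mul]
    exact mul_nonpos_of_nonpos_of_nonneg (by linarith) (by linarith)
  · rw [abs_of_nonneg, one_mul]
    exact mul_nonneg_of_nonpos_of_nonpos (by linarith) (by linarith)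

theorem num2 : (-31416 / 100000 < -π / 10 ∧ -π / 10 < -31415 / 100000) ∧
    (65808 / 100000 < √3 / 2 - sin (π / 15) ∧ √3 / 2 - sin (π / 15) < 65816 / 100000) ∧
    (6362 / 10000 < (√3 / 2 + sin (2 * π / 15)) / 2 ∧
      (√3 / 2 + sin (2 * π / 15)) / 2 < 63642 / 100000) := by
  have hp1 := pi_gt_d4
  have hp2 := pi_lt_d4
  have h3a : (1.7320 : ℝ) < √3 := by
    rw [lt_sqrt (by norm_num)]; norm_num
  have h3b : √3 < (1.7321 : ℝ) := by
    rw [sqrt_lt' (by norm_num)]; norm_num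
  have key : ∀ x : ℝ, 0 < x → x ≤ 1 / 2 → x - x ^ 3 / 6 - x ^ 5 / 100 ≤ sin x ∧
      sin x ≤ x - x ^ 3 / 6 + x ^ 5 / 100 := by
    intro x hx0 hx1
    have hb := sin_bound (x := x) (by rw [abs_of_pos hx0]; linarith)
    rw [abs_of_pos hx0] at hb
    rw [abs_le] at hb
    constructor <;> linarith [hb.1, hb.2]
  have k1 := key (π / 15) (by linarith) (by linarith)
  have k2 := key (2 * π / 15) (by linarith) (by linarith)
  set x := π / 15 with hx
  have e2 : 2 * π / 15 = 2 * x := by rw [hx]; ring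
  rw [e2] at k2 ⊢
  have hx1 : 0.20943 < x := by rw [hx]; linarith
  have hx2 : x < 0.20944 := by rw [hx]; linarith
  have hx0 : 0 ≤ x := by linarith
  have c1 : x ^ 3 ≤ 0.20944 ^ 3 := pow_le_pow_left₀ hx0 hx2.le 3
  have c2 : (0.20943 : ℝ) ^ 3 ≤ x ^ 3 := pow_le_pow_left₀ (by norm_num) hx1.le 3
  have c3 : x ^ 5 ≤ 0.20944 ^ 5 := pow_le_pow_left₀ hx0 hx2.le 5
  have e3 : (2 * x) ^ 3 = 8 * x ^ 3 := by ring
  have e5 : (2 * x) ^ 5 = 32 * x ^ 5 := by ring
  rw [e3, e5] at k2
  norm_num at c1 c2 c3 h3a h3b hx1 hx2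
  obtain ⟨k1a, k1b⟩ := k1
  obtain ⟨k2a, k2b⟩ := k2
  refine ⟨⟨by linarith, by linarith⟩, ⟨by linarith, by linarith⟩, ⟨by linarith, by linarith⟩⟩

theorem quad2 (a b c x y z : ℝ) (a1 : -31416 / 100000 < a) (a2 : a < -31415 / 100000)
    (b1 : 65808 / 100000 < b) (b2 : b < 65816 / 100000)
    (c1 : 6362 / 10000 < c) (c2 : c < 63642 / 100000) :
    (a * x + b * y + c * z) ^ 2 + (b * x + a * y + b * z) ^ 2 + (c * x + b * y + a * z) ^ 2 ≤
      99 / 100 * (x ^ 2 + y ^ 2 + z ^ 2) := by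
  have e1 : (a - c) ^ 2 ≤ 9037 / 10000 := by nlinarith
  have e2 : (a + c) ^ 2 ≤ 1039 / 10000 := by nlinarith
  have e3 : b ^ 2 ≤ 4332 / 10000 := by nlinarith
  have e4 : a ^ 2 ≤ 987 / 10000 := by nlinarith
  have e5 : 0 ≤ 2 * a + c := by linarith
  have e6 : 2 * a + c ≤ 813 / 100000 := by linarith
  have e7 : 0 ≤ b * (2 * a + c) := mul_nonneg (by linarith) e5
  have e8 : b * (2 * a + c) ≤ 62 / 10000 := by nlinarith
  have key : (a * x + b * y + c * z) ^ 2 + (b * x + a * y + b * z) ^ 2 +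
      (c * x + b * y + a * z) ^ 2 = (a - c) ^ 2 * ((x - z) ^ 2 / 2) +
      ((a + c) ^ 2 + 2 * b ^ 2) * ((x + z) ^ 2 / 2) + (2 * b ^ 2 + a ^ 2) * y ^ 2 +
      b * (2 * a + c) * (2 * (x + z) * y) := by ring
  have f1 : (a - c) ^ 2 * ((x - z) ^ 2 / 2) ≤ 9037 / 10000 * ((x - z) ^ 2 / 2) :=
    mul_le_mul_of_nonneg_right e1 (by positivity)
  have f2 : ((a + c) ^ 2 + 2 * b ^ 2) * ((x + z) ^ 2 / 2) ≤ 9703 / 10000 * ((x + z) ^ 2 / 2) :=
    mul_le_mul_of_nonneg_right (by linarith) (by positivity)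
  have f3 : (2 * b ^ 2 + a ^ 2) * y ^ 2 ≤ 9651 / 10000 * y ^ 2 :=
    mul_le_mul_of_nonneg_right (by linarith) (by positivity)
  have f4 : b * (2 * a + c) * (2 * (x + z) * y) ≤ 62 / 10000 * ((x + z) ^ 2 + y ^ 2) := by
    have g1 : 2 * (x + z) * y ≤ (x + z) ^ 2 + y ^ 2 := by nlinarith [sq_nonneg (x + z - y)]
    calc b * (2 * a + c) * (2 * (x + z) * y) ≤ b * (2 * a + c) * ((x + z) ^ 2 + y ^ 2) :=
          mul_le_mul_of_nonneg_left g1 e7
      _ ≤ _ := mul_le_mul_of_nonneg_right e8 (by positivity)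
  rw [key]
  nlinarith [sq_nonneg (x - z), sq_nonneg (x + z), sq_nonneg y]

theorem hB2 (u : ℕ → ℝ) : ∑ t ∈ range (2 + 1), (∑ r ∈ range (2 + 1), s2 ((t : ℤ) - r) * u r) ^ 2 ≤
    (99 / 100) * ∑ r ∈ range (2 + 1), u r ^ 2 := by
  obtain ⟨⟨a1, a2⟩, ⟨b1, b2⟩, ⟨c1, c2⟩⟩ := num2
  have h := quad2 _ _ _ (u 0) (u 1) (u 2) a1 a2 b1 b2 c1 c2
  have v0 : s2 0 = -π / 10 := by simp [s2]
  have v1 : s2 1 = √3 / 2 - sin (π / 15) := by simp [s2]
  have v1' : s2 (-1) = √3 / 2 - sin (π / 15) := by simp [s2]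
  have v2 : s2 2 = (√3 / 2 + sin (2 * π / 15)) / 2 := by norm_num [s2]
  have v2' : s2 (-2) = (√3 / 2 + sin (2 * π / 15)) / 2 := by norm_num [s2]
  have e : ∑ t ∈ range (2 + 1), (∑ r ∈ range (2 + 1), s2 ((t : ℤ) - r) * u r) ^ 2 =
      (s2 0 * u 0 + s2 (-1) * u 1 + s2 (-2) * u 2) ^ 2 +
      (s2 1 * u 0 + s2 0 * u 1 + s2 (-1) * u 2) ^ 2 +
      (s2 2 * u 0 + s2 1 * u 1 + s2 0 * u 2) ^ 2 := by
    simp only [sum_range_succ, range_zero, sum_empty]
    norm_num
  rw [e, v0, v1, v1', v2, v2']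
  simp only [sum_range_succ, range_zero, sum_empty, zero_add]
  exact h

/-! ### The step function of order three -/

/-- `S = sin (arccos (1 / 6))` -/
noncomputable def S3 : ℝ := √35 / 6

noncomputable def al : ℝ := arcsin S3

noncomputable def σ3 (x : ℝ) : ℝ :=
  if S3 ≤ x then 1 else if 0 ≤ x then -1 else if -S3 ≤ x then 1 else -1

theorem S3_sq : S3 ^ 2 = 35 / 36 := by
  unfold S3
  rw [div_pow, sq_sqrt (by norm_num)]
  norm_num

theorem S3_pos : 0 < S3 := by unfold S3; positivity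

theorem S3_lt : S3 < 1 := by
  have h := S3_sq
  have h2 := S3_pos
  nlinarith

theorem sin_al : sin al = S3 := by
  unfold al
  exact sin_arcsin (by linarith [S3_pos]) S3_lt.le

theorem cos_al : cos al = 1 / 6 := by
  unfold al
  rw [cos_arcsin, S3_sq]
  rw [show (1 : ℝ) - 35 / 36 = (1 / 6) ^ 2 by norm_num, sqrt_sq (by norm_num)]

theorem al_pos : 0 < al := arcsin_pos.2 S3_pos

theorem al_lt : al < π / 2 := by
  unfold al
  exact arcsin_lt_pi_div_two.2 S3_lt

theorem σ3_meas : Measurable σ3 := by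
  unfold σ3
  exact Measurable.ite measurableSet_Ici measurable_const
    (Measurable.ite measurableSet_Ici measurable_const
      (Measurable.ite measurableSet_Ici measurable_const measurable_const))

theorem σ3_bdd (x : ℝ) : |σ3 x| ≤ 1 := by
  unfold σ3
  split_ifs <;> simp

noncomputable def d3 (k : ℕ) : ℝ :=
  if k = 1 then 3 / 4 - S3 ^ 2 else if k = 3 then 1 / 4 else 0

theorem P3_eq (t : ℝ) : ∑ k ∈ range (3 + 1), d3 k * cos (k * t) =
    cos t * ((cos t - S3) * (cos t + S3)) := by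
  simp only [sum_range_succ, range_zero, sum_empty, d3]
  norm_num
  rw [cos_three_mul]
  ring

theorem psi3 (t : ℝ) : |∑ k ∈ range (3 + 1), d3 k * cos (k * t)| =
    σ3 (cos t) * ∑ k ∈ range (3 + 1), d3 k * cos (k * t) := by
  rw [P3_eq]
  have h := S3_pos
  unfold σ3
  split_ifs with h1 h2 h3
  · rw [abs_of_nonneg, one_mul]
    exact mul_nonneg (by linarith) (mul_nonneg (by linarith) (by linarith))
  · rw [abs_of_nonpos, neg_one_mul]
    exact mul_nonpos_of_nonneg_of_nonpos h2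
      (mul_nonpos_of_nonpos_of_nonneg (by linarith) (by linarith))
  · rw [abs_of_nonneg, one_mul]
    exact mul_nonneg_of_nonpos_of_nonpos (by linarith)
      (mul_nonpos_of_nonpos_of_nonneg (by linarith) (by linarith))
  · rw [abs_of_nonpos, neg_one_mul]
    exact mul_nonpos_of_nonpos_of_nonneg (by linarith)
      (mul_nonneg_of_nonpos_of_nonpos (by linarith) (by linarith))

noncomputable def s3 (k : ℤ) : ℝ :=
  if |k| = 1 then -2 / 3 else if |k| = 3 then 53 / 81 else 0

theorem hB3 (u : ℕ → ℝ) : ∑ t ∈ range (3 + 1), (∑ r ∈ range (3 + 1), s3 ((t : ℤ) - r) * u r) ^ 2 ≤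
    (99 / 100) * ∑ r ∈ range (3 + 1), u r ^ 2 := by
  have v0 : s3 0 = 0 := by simp [s3]
  have v1 : s3 1 = -2 / 3 := by simp [s3]
  have v1' : s3 (-1) = -2 / 3 := by simp [s3]
  have v2 : s3 2 = 0 := by norm_num [s3]
  have v2' : s3 (-2) = 0 := by norm_num [s3]
  have v3 : s3 3 = 53 / 81 := by norm_num [s3]
  have v3' : s3 (-3) = 53 / 81 := by norm_num [s3]
  have e : ∑ t ∈ range (3 + 1), (∑ r ∈ range (3 + 1), s3 ((t : ℤ) - r) * u r) ^ 2 =
      (s3 0 * u 0 + s3 (-1) * u 1 + s3 (-2) * u 2 + s3 (-3) * u 3) ^ 2 +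
      (s3 1 * u 0 + s3 0 * u 1 + s3 (-1) * u 2 + s3 (-2) * u 3) ^ 2 +
      (s3 2 * u 0 + s3 1 * u 1 + s3 0 * u 2 + s3 (-1) * u 3) ^ 2 +
      (s3 3 * u 0 + s3 2 * u 1 + s3 1 * u 2 + s3 0 * u 3) ^ 2 := by
    simp only [sum_range_succ, range_zero, sum_empty]
    norm_num
  rw [e, v0, v1, v1', v2, v2', v3, v3']
  simp only [sum_range_succ, range_zero, sum_empty, zero_add]
  nlinarith [sq_nonneg (u 0 - u 2), sq_nonneg (u 1 - u 3), sq_nonneg (u 0 + u 2), sq_nonneg (u 1 + u 3), sq_nonneg (u 0), sq_nonneg (u 1), sq_nonneg (u 2), sq_nonneg (u 3)]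

theorem bb3 (k : ℤ) : bb σ3 k =
    1 / π * (2 * F k (π / 2 - al) - 2 * F k (π / 2) + 2 * F k (π / 2 + al) - F k π - F k 0) := by
  have hp := pi_pos
  have ha := al_pos
  have ha2 := al_lt
  have c1 : cos (π / 2 - al) = S3 := by rw [cos_pi_div_two_sub, sin_al]
  have c3 : cos (π / 2 + al) = -S3 := by rw [add_comm, cos_add_pi_div_two, sin_al]
  have hS := S3_pos
  unfold bb
  have hi := step_int σ3_meas σ3_bdd k
  rw [← intervalIntegral.integral_add_adjacent_intervals (hi 0 (π / 2 + al)) (hi _ π),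
    ← intervalIntegral.integral_add_adjacent_intervals (hi 0 (π / 2)) (hi _ (π / 2 + al)),
    ← intervalIntegral.integral_add_adjacent_intervals (hi 0 (π / 2 - al)) (hi _ (π / 2)),
    piece (σ := σ3) (ε := 1) (by linarith) ?_ k, piece (σ := σ3) (ε := -1) (by linarith) ?_ k,
    piece (σ := σ3) (ε := 1) (by linarith) ?_ k, piece (σ := σ3) (ε := -1) (by linarith) ?_ k]
  · ring
  · intro t ht
    have h := cos_between (by linarith) le_rfl ht
    rw [c3] at h
    unfold σ3
    rw [if_neg (by linarith), if_neg (by linarith), if_neg (by linarith)]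
  · intro t ht
    have h := cos_between (by linarith) (by linarith) ht
    rw [c3, cos_pi_div_two] at h
    unfold σ3
    rw [if_neg (by linarith), if_neg (by linarith), if_pos h.1]
  · intro t ht
    have h := cos_between (by linarith) (by linarith) ht
    rw [c1, cos_pi_div_two] at h
    unfold σ3
    rw [if_neg (by linarith), if_pos h.1]
  · intro t ht
    have h := cos_between le_rfl (by linarith) ht
    rw [c1] at h
    unfold σ3
    rw [if_pos h.1]

theorem s3_eq (k : ℤ) (hk : |k| ≤ 3) : bb σ3 k = 2 / π * s3 k := by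
  have hp := pi_pos
  rw [bb3]
  have f1 : sin (π / 2 - al) = 1 / 6 := by rw [sin_pi_div_two_sub, cos_al]
  have f2 : sin (π / 2 + al) = 1 / 6 := by rw [add_comm, sin_add_pi_div_two, cos_al]
  have f1' : sin (al - π / 2) = -(1 / 6) := by rw [sin_sub_pi_div_two, cos_al]
  have f2' : sin (-al + -(π / 2)) = -(1 / 6) := by
    rw [show -al + -(π / 2) = -(al + π / 2) by ring, sin_neg, sin_add_pi_div_two, cos_al]
  have g1 : sin (2 * (π / 2 - al)) = sin (2 * al) := by
    rw [show 2 * (π / 2 - al) = π - 2 * al by ring, sin_pi_sub]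
  have g2 : sin (2 * (π / 2 + al)) = -sin (2 * al) := by
    rw [show 2 * (π / 2 + al) = 2 * al + π by ring, sin_add_pi]
  have g3 : sin (2 * (π / 2)) = 0 := by
    rw [show 2 * (π / 2) = π by ring, sin_pi]
  have k1 : cos (3 * al) = -13 / 27 := by
    rw [cos_three_mul, cos_al]; norm_num
  have k2 : sin (3 * (π / 2 - al)) = 13 / 27 := by
    rw [show 3 * (π / 2 - al) = π / 2 - 3 * al + π by ring, sin_add_pi, sin_pi_div_two_sub, k1]
    norm_num
  have k3 : sin (3 * (π / 2 + al)) = 13 / 27 := by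
    rw [show 3 * (π / 2 + al) = 3 * al + π / 2 + π by ring, sin_add_pi, sin_add_pi_div_two, k1]
    norm_num
  have k4 : sin (3 * (π / 2)) = -1 := by
    rw [show 3 * (π / 2) = π / 2 + π by ring, sin_add_pi, sin_pi_div_two]
  have k5 : sin (3 * π) = 0 := by
    have := sin_nat_mul_pi 3
    exact_mod_cast this
  have k6 : sin (2 * π) = 0 := sin_two_pi
  have h : k = -3 ∨ k = -2 ∨ k = -1 ∨ k = 0 ∨ k = 1 ∨ k = 2 ∨ k = 3 := by
    rw [abs_le] at hk; omega
  rcases h with rfl | rfl | rfl | rfl | rfl | rfl | rfl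
  · simp only [F, s3]
    norm_num
    rw [k2, k3, k4, k5]
    field_simp
    norm_num
  · simp only [F, s3]
    norm_num
    rw [g1, g2, g3]
    simp
    ring
  · simp only [F, s3]
    norm_num
    rw [f1', f2']
    field_simp
    norm_num
  · simp only [F, s3]
    norm_num
    ring
  · simp only [F, s3]
    norm_num
    rw [f1, f2]
    field_simp
    norm_num
  · simp only [F, s3]
    norm_num
    rw [g1, g2, g3]
    simp
    ring
  · simp only [F, s3]
    norm_num
    rw [k2, k3, k4, k5]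
    field_simp
    norm_num

/-- **Result.** `c_N > π / 2` for every `N ≥ 2`. -/
theorem result (N : ℕ) (hN : 2 ≤ N) : ENNReal.ofReal (π / 2) < cN N := by
  have hp := pi_pos
  by_cases h3 : N = 3
  · subst h3
    refine final (q := 1) (m := 3) one_pos (by norm_num) (by norm_num) σ3_meas σ3_bdd d3 psi3
      π ⟨hp, by linarith⟩ ?_ s3 (fun k hk => s3_eq k (by exact_mod_cast hk)) hB3
    have h := P3_eq ((1 : ℕ) * π)
    rw [h]
    have h2 : ((1 : ℕ) : ℝ) * π = π := by simp
    rw [h2, cos_pi]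
    have h3 : (-1 : ℝ) * ((-1 - S3) * (-1 + S3)) = -(1 - S3 ^ 2) := by ring
    rw [h3, S3_sq]
    norm_num
  · set q := N / 2 with hq
    have hq0 : 0 < q := by omega
    have hqr : (1 : ℝ) ≤ q := by exact_mod_cast hq0
    refine final (q := q) (m := 2) hq0 (by omega) (by omega) σ2_meas σ2_bdd d2 psi2
      (π / q) ⟨by positivity, ?_⟩ ?_ s2 (fun k hk => s2_eq k (by exact_mod_cast hk)) hB2
    · rw [div_lt_iff₀ (by linarith)]
      nlinarith
    · have h := P2_eq (q * (π / q))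
      rw [h]
      have h2 : (q : ℝ) * (π / q) = π := by field_simp
      rw [h2, cos_pi]
      have h4 : (-1 : ℝ) < cb := by
        unfold cb
        rw [← cos_pi]
        exact cos_lt_cos_of_nonneg_of_le_pi (by positivity) le_rfl (by linarith)
      have h5 : 0 < (-1 - 1 / 2) * (-1 - cb) := mul_pos_of_neg_of_neg (by norm_num) (by linarith)
      exact h5.ne'

end Pool.Agent.Results.MP_becf51_an.AboveHalfPi
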